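import Pool.Agent.Helper32_HCK.InNP
import Pool.Agent.Helper32_HCK.Reduction

/-!
# MP_58e31d_lc, Q1 (affirmative answer)

For every finite graph `F` (loops allowed) whose list `F`-colouring problem is NP-complete, some
weighted extension `(H, C, K)` of `F` has an NP-complete `(H, C, K)`-colouring problem.

All definitions used in the statement are in `Pool/Agent/Helper32_HCK/Defs.lean`; complexity is
measured with Mathlib's `Turing.TM2ComputableInPolyTime`.
-/

namespace Pool.Agent.Results.MP_58e31d_lc.NPHardExtension

open Pool.Agent.Helper32_HCK

/-- **Q1 of MP_58e31d_lc, answered affirmatively.** For every finite graph `F` (loops allowed)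
whose list `F`-colouring problem is NP-complete there is a weighted extension `T = (H, C, K)` of
`F` whose `(H, C, K)`-colouring problem is NP-complete. -/
theorem result (V : Type) [Fintype V] (F : LoopGraph V)
    (hF : NPComplete (listColouringProblem F)) :
    ∃ (W : Type) (_ : Fintype W) (T : PartialWeightedAssignment W),
      T.IsWeightedExtensionOf F ∧ NPComplete T.colouringProblem :=
  ⟨_, inferInstance, ext F, ext_isWeightedExtension F, hck_inNP (ext F),
    fun L hL => polyReduces_comp (hF.2 L hL) (list_reduces F)⟩

end Pool.Agent.Results.MP_58e31d_lc.NPHardExtension
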